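import Pool.Agent.H12R3.VR.Stmts

/-!
Task B1 of the project H12-VR: a pointwise limit of continuous functions on the line has a point
of continuity.
-/

set_option autoImplicit false

open Filter Topology

namespace Pool.Agent.H978R3.VR.TaskB1

theorem t : H12VR.TaskB1 := by
  intro f F hF hlim
  let A : ℝ → ℕ → Set ℝ := fun ε N => {x | ∀ m n, N ≤ m → N ≤ n → |F m x - F n x| ≤ ε}
  have hAc : ∀ ε N, IsClosed (A ε N) := by
    intro ε N
    have : A ε N = ⋂ m, ⋂ n, ⋂ (_ : N ≤ m), ⋂ (_ : N ≤ n), {x | |F m x - F n x| ≤ ε} := by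
      ext x
      simp [A]
    rw [this]
    refine isClosed_iInter fun m => isClosed_iInter fun n => isClosed_iInter fun _ =>
      isClosed_iInter fun _ => ?_
    exact isClosed_le ((hF m).sub (hF n)).abs continuous_const
  have hAU : ∀ ε, 0 < ε → ⋃ N, A ε N = Set.univ := by
    intro ε hε
    rw [Set.eq_univ_iff_forall]
    intro x
    rw [Set.mem_iUnion]
    have hc : CauchySeq (fun n => F n x) := (hlim x).cauchySeq
    obtain ⟨N, hN⟩ := Metric.cauchySeq_iff.1 hc ε hε
    refine ⟨N, fun m n hm hn => ?_⟩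
    have := hN m hm n hn
    rw [Real.dist_eq] at this
    exact this.le
  have hAf : ∀ ε N x, x ∈ A ε N → |f x - F N x| ≤ ε := by
    intro ε N x hx
    have h1 : Tendsto (fun m => |F m x - F N x|) atTop (𝓝 |f x - F N x|) :=
      ((hlim x).sub_const _).abs
    refine le_of_tendsto h1 ?_
    filter_upwards [eventually_ge_atTop N] with m hm
    exact hx m N hm le_rfl
  let U : ℕ → Set ℝ := fun k => ⋃ N, interior (A (1 / ((k : ℝ) + 1)) N)
  have hUo : ∀ k, IsOpen (U k) := fun k => isOpen_iUnion fun N => isOpen_interior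
  have hUd : ∀ k, Dense (U k) := fun k =>
    dense_iUnion_interior_of_closed (hAc _) (hAU _ (by positivity))
  have hd : Dense (⋂ k, U k) := dense_iInter_of_isOpen hUo hUd
  obtain ⟨x₀, hx₀⟩ := hd.nonempty
  refine ⟨x₀, ?_⟩
  rw [Metric.continuousAt_iff']
  intro ε hε
  obtain ⟨k, hk⟩ := exists_nat_one_div_lt (show (0 : ℝ) < ε / 3 by positivity)
  obtain ⟨N, hN⟩ := Set.mem_iUnion.1 (Set.mem_iInter.1 hx₀ k)
  have h1 : ∀ᶠ y in 𝓝 x₀, y ∈ A (1 / ((k : ℝ) + 1)) N :=
    (mem_interior_iff_mem_nhds.1 hN)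
  have h2 : ∀ᶠ y in 𝓝 x₀, dist (F N y) (F N x₀) < ε / 3 :=
    (Metric.continuousAt_iff'.1 (hF N).continuousAt) (ε / 3) (by positivity)
  filter_upwards [h1, h2] with y hy1 hy2
  have h3 := hAf _ _ _ hy1
  have h4 := hAf _ _ _ h1.self_of_nhds
  rw [Real.dist_eq] at hy2 ⊢
  have h5 : f y - f x₀ = (f y - F N y) + (F N y - F N x₀) + (F N x₀ - f x₀) := by ring
  rw [h5]
  have h6 := abs_add_le ((f y - F N y) + (F N y - F N x₀)) (F N x₀ - f x₀)
  have h7 := abs_add_le (f y - F N y) (F N y - F N x₀)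
  have h8 : |F N x₀ - f x₀| = |f x₀ - F N x₀| := abs_sub_comm _ _
  linarith

end Pool.Agent.H978R3.VR.TaskB1
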